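import Pool.Agent.H46.LM.MinB

/-!
# Both forms of the bound for the same numbers
-/

set_option autoImplicit false

namespace Pool.Agent.H19.LB

open Real Pool.Agent.H46.LM

/-- the bounds for `θ = 0` and `θ = 1` give the minimum form -/
theorem min_of {α β ε κ : ℝ} (hε : 0 < ε) (hκ : 0 < κ)
    (hb : ∀ q : ℕ, 1 ≤ q → κ ≤ q * |q * α - round (q * α)|)
    (h0 : ∃ c > 0, ∀ q : ℕ, 1 ≤ q →
      c * (1 + |log ((q : ℝ) ^ (0 : ℝ) * |q * α - round (q * α)|)|) ^ (-(1 + ε)) ≤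
        q * |q * α - round (q * α)| * |q * β - round (q * β)|)
    (h1 : ∃ c > 0, ∀ q : ℕ, 1 ≤ q →
      c * (1 + |log ((q : ℝ) ^ (1 : ℝ) * |q * α - round (q * α)|)|) ^ (-(1 + ε)) ≤
        q * |q * α - round (q * α)| * |q * β - round (q * β)|) :
    ∃ c > 0, ∀ q : ℕ, 1 ≤ q →
      c ≤ q * |q * α - round (q * α)| * |q * β - round (q * β)| *
        log (2 + min (q * |q * α - round (q * α)|) (q * |q * β - round (q * β)|)) ^ (1 + ε) := by
  obtain ⟨c0, hc0, e0⟩ := h0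
  obtain ⟨c1, hc1, e1⟩ := h1
  have hc0' : 0 < c0 := hc0
  have hc1' : 0 < c1 := hc1
  obtain ⟨c, hc, h⟩ := convert_min hε hκ (lt_min hc0' hc1')
  refine ⟨c, hc, fun q hq => ?_⟩
  have hq1 : (1 : ℝ) ≤ q := by exact_mod_cast hq
  have hbq := hb q hq
  have hs0 : 0 ≤ |q * α - round (q * α)| := abs_nonneg _
  have hs : 0 < |q * α - round (q * α)| := by
    rcases hs0.lt_or_eq with h1 | h1
    · exact h1
    · rw [← h1, mul_zero] at hbq
      exact absurd hbq (not_le.mpr hκ)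
  have hs1 : |q * α - round (q * α)| ≤ 1 := by
    have := abs_sub_round ((q : ℝ) * α)
    linarith
  refine h q _ _ hq1 hs hs1 (abs_nonneg _) hbq ?_ ?_
  · refine (min_le_left _ _).trans (minB_mul (abs_nonneg _) ?_)
    have := e0 q hq
    rwa [rpow_zero, one_mul] at this
  · refine (min_le_right _ _).trans (minB_mul (abs_nonneg _) ?_)
    have := e1 q hq
    rwa [rpow_one] at this

theorem limits_both (A : Set ℝ) (hA : A.Countable)
    (hbad : ∀ α ∈ A, ∃ c > 0, ∀ q : ℕ, 1 ≤ q → c ≤ q * |q * α - round (q * α)|)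
    (Θ : Set ℝ) (hΘ : Θ.Countable) (h01 : Θ ⊆ Set.Icc 0 1) (ε : ℝ) (hε : 0 < ε) :
    dimH {β : ℝ | ∀ α ∈ A,
      (∀ θ ∈ Θ, ∃ c > 0, ∀ q : ℕ, 1 ≤ q →
        c * (1 + |log ((q : ℝ) ^ θ * |q * α - round (q * α)|)|) ^ (-(1 + ε)) ≤
          q * |q * α - round (q * α)| * |q * β - round (q * β)|) ∧
      ∃ c > 0, ∀ q : ℕ, 1 ≤ q →
        c ≤ q * |q * α - round (q * α)| * |q * β - round (q * β)| *
          log (2 + min (q * |q * α - round (q * α)|) (q * |q * β - round (q * β)|)) ^ (1 + ε)} =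
      1 := by
  refine le_antisymm ?_ ?_
  · calc _ ≤ dimH (Set.univ : Set ℝ) := dimH_mono (Set.subset_univ _)
      _ = 1 := Real.dimH_univ
  · have hΘ' : (Θ ∪ {0, 1} : Set ℝ).Countable :=
      hΘ.union (Set.Countable.insert _ (Set.countable_singleton _))
    have h01' : (Θ ∪ {0, 1} : Set ℝ) ⊆ Set.Icc 0 1 := by
      intro x hx
      rcases hx with hx | rfl | hx
      · exact h01 hx
      · simp
      · rw [Set.mem_singleton_iff] at hx
        subst hx
        simp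
    rw [← Pool.Agent.H19.LW.limits A (Θ ∪ {0, 1}) hA hΘ' h01' hbad ε hε]
    refine dimH_mono fun β hβ α hα => ⟨fun θ hθ => hβ α hα θ (Or.inl hθ), ?_⟩
    obtain ⟨κ, hκ, hb⟩ := hbad α hα
    exact min_of hε hκ hb (hβ α hα 0 (by simp)) (hβ α hα 1 (by simp))

end Pool.Agent.H19.LB
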